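import Mathlib

/-!
Choice of columns close to a set with nonempty horizontal sections.
-/

set_option autoImplicit false
set_option maxHeartbeats 1000000

namespace Pool.Agent.Helper57K9.TG

/-- A grid point close to `x`. -/
theorem pick {L : ℝ} (hL : 0 < L) {N : ℤ} (hN : 0 < N) {x : ℝ} (h0 : 0 ≤ x) (h1 : x ≤ L) :
    ∃ l : ℤ, 0 ≤ l ∧ l < N ∧ |x - l * (L / N)| ≤ L / N := by
  have hNr : (0:ℝ) < N := by exact_mod_cast hN
  have hq : 0 < L / N := div_pos hL hNr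
  rcases lt_or_ge x L with h | h
  · refine ⟨⌊x / (L / N)⌋, Int.floor_nonneg.mpr (div_nonneg h0 hq.le), ?_, ?_⟩
    · rw [Int.floor_lt, div_lt_iff₀ hq]
      have : (N:ℝ) * (L / N) = L := by field_simp
      rw [this]
      exact h
    · have h2 := Int.floor_le (x / (L / N))
      have h3 := Int.lt_floor_add_one (x / (L / N))
      rw [le_div_iff₀ hq] at h2
      rw [div_lt_iff₀ hq] at h3
      rw [abs_le]
      constructor <;> nlinarith
  · refine ⟨N - 1, by omega, by omega, ?_⟩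
    have hx : x = L := le_antisymm h1 h
    rw [hx]
    have : L - ((N - 1 : ℤ) : ℝ) * (L / N) = L / N := by
      push_cast
      field_simp
      ring
    rw [this, abs_of_pos hq]

/-- The clipped column is close to the point. -/
theorem clip {A B δ x : ℝ} (hδ : 0 < δ) {x0 x1 : ℤ} (h01 : x0 ≤ x1)
    (hx0 : -A < δ * x0 ∧ δ * x0 ≤ -A + δ) (hx1 : B - δ ≤ δ * x1 ∧ δ * x1 < B)
    (h0 : -A ≤ x) (h1 : x ≤ B) : |x - δ * ((max x0 (min x1 ⌊x / δ⌋) : ℤ) : ℝ)| ≤ δ := by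
  have f1 := Int.floor_le (x / δ)
  have f2 := Int.lt_floor_add_one (x / δ)
  rw [le_div_iff₀ hδ] at f1
  rw [div_lt_iff₀ hδ] at f2
  obtain ⟨f, hf⟩ : ∃ f : ℤ, f = ⌊x / δ⌋ := ⟨_, rfl⟩
  rw [← hf] at f1 f2 ⊢
  rcases lt_or_ge f x0 with h | h
  · have e : max x0 (min x1 f) = x0 := by omega
    rw [e]
    have h2 : (f:ℝ) + 1 ≤ x0 := by exact_mod_cast h
    have h3 := mul_le_mul_of_nonneg_right h2 hδ.le
    rw [abs_le]
    constructor <;> nlinarith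
  · rcases lt_or_ge x1 f with h' | h'
    · have e : max x0 (min x1 f) = x1 := by omega
      rw [e]
      have h2 : (x1:ℝ) + 1 ≤ f := by exact_mod_cast h'
      have h3 := mul_le_mul_of_nonneg_right h2 hδ.le
      rw [abs_le]
      constructor <;> nlinarith
    · have e : max x0 (min x1 f) = f := by omega
      rw [e, abs_le]
      constructor <;> nlinarith

/-- The columns. -/
theorem core (A B H κ : ℝ) (hA : 0 < A) (hB : 0 < B) (hH : 0 < H) (hκ : 0 < κ) :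
    ∃ (N : ℕ) (δ0 r : ℝ), 0 < N ∧ 0 < δ0 ∧ 0 < r ∧
    ∀ δ : ℝ, 0 < δ → δ < δ0 → ∀ x0 x1 y1 : ℤ, x0 ≤ x1 →
      (-A < δ * x0 ∧ δ * x0 ≤ -A + δ) → (B - δ ≤ δ * x1 ∧ δ * x1 < B) →
      (H - 2 * δ ≤ δ * y1 ∧ δ * y1 < H - δ) →
      ∃ m : ℤ, 0 < m ∧ r ≤ δ * m ∧ δ * m ≤ κ ∧ (N:ℤ)^2 * m ≤ y1 ∧
      ∀ K : Set ℂ, K ⊆ {z | (-A ≤ z.re ∧ z.re ≤ B) ∧ 0 ≤ z.im ∧ z.im ≤ H} →
        (∀ y : ℝ, 0 ≤ y → y ≤ H → (K ∩ {z | y ≤ z.im ∧ z.im ≤ y}).Nonempty) →
        ∃ s : ℤ → ℤ, (∀ j, x0 ≤ s j ∧ s j ≤ x1) ∧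
        (∀ k j : ℤ, k * m ≤ j → j ≤ k * m + m - 1 → s j = s (k * m)) ∧
        (∀ j, 0 ≤ j → j ≤ y1 → ∃ q ∈ K, |q.im - δ * j| ≤ κ ∧ |q.re - δ * s j| ≤ κ) ∧
        (∀ p ∈ K, ∃ k : ℕ, k < N^2 ∧ |p.re - δ * s ((k:ℤ) * m)| ≤ κ ∧
          |p.im - δ * (((k:ℤ) * m : ℤ) : ℝ)| ≤ κ) := by
  obtain ⟨N, hN⟩ := exists_nat_gt (8 * (A + B + 2 * H + 1) / κ)
  have hNr : (0:ℝ) < N := lt_trans (by positivity) hN
  have hN0 : 0 < N := by exact_mod_cast hNr
  have hNz0 : (0:ℤ) < (N:ℤ) := by exact_mod_cast hN0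
  have hN1 : (1:ℝ) ≤ N := by exact_mod_cast hN0
  rw [div_lt_iff₀ hκ] at hN
  have hw : (A + B) / N ≤ κ / 8 := by
    rw [div_le_iff₀ hNr]; nlinarith
  have hHN : H / N ≤ κ / 16 := by
    rw [div_le_iff₀ hNr]; nlinarith
  refine ⟨N, min (κ / (8 * ((N:ℝ)^2 + 12))) (H / (2 * ((N:ℝ)^2 + 2))),
    H / (2 * (N:ℝ)^2), hN0, lt_min (by positivity) (by positivity), by positivity, ?_⟩
  intro δ hδ hlt x0 x1 y1 h01 hx0 hx1 hy1
  obtain ⟨hc1, hc2⟩ := hy1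
  have l2 : δ * ((N:ℝ)^2 + 12) ≤ κ / 8 := by
    have h := (lt_of_lt_of_le hlt (min_le_left _ _)).le
    rw [le_div_iff₀ (by positivity)] at h
    linarith
  have l3 : δ * ((N:ℝ)^2 + 2) ≤ H / 2 := by
    have h := (lt_of_lt_of_le hlt (min_le_right _ _)).le
    rw [le_div_iff₀ (by positivity)] at h
    linarith
  have l0 : 0 ≤ δ * (N:ℝ)^2 := by positivity
  have l4 : δ ≤ κ / 8 := by nlinarith
  obtain ⟨m, hm⟩ : ∃ m : ℤ, m = y1 / (N:ℤ)^2 := ⟨_, rfl⟩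
  have hNz : (0:ℤ) < (N:ℤ)^2 := by positivity
  have hm1 : (N:ℤ)^2 * m ≤ y1 := by rw [hm]; exact Int.mul_ediv_self_le (ne_of_gt hNz)
  have hm2 : y1 < (N:ℤ)^2 * m + (N:ℤ)^2 := by
    rw [hm]; exact Int.lt_mul_ediv_self_add hNz
  have hm1r : (N:ℝ)^2 * m ≤ y1 := by exact_mod_cast hm1
  have hm2r : (y1 : ℝ) < (N:ℝ)^2 * m + (N:ℝ)^2 := by exact_mod_cast hm2
  have hm3 : δ * ((N:ℝ)^2 * m) ≤ δ * y1 := mul_le_mul_of_nonneg_left hm1r hδ.le
  have hm4 : δ * (y1 : ℝ) ≤ δ * ((N:ℝ)^2 * m + (N:ℝ)^2) :=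
    mul_le_mul_of_nonneg_left hm2r.le hδ.le
  have hr : H / (2 * (N:ℝ)^2) ≤ δ * m := by
    rw [div_le_iff₀ (by positivity)]
    have e : δ * (m:ℝ) * (2 * (N:ℝ)^2) = 2 * (δ * ((N:ℝ)^2 * m)) := by ring
    rw [e]
    linarith
  have hdm : 0 < δ * (m : ℝ) := lt_of_lt_of_le (by positivity) hr
  have hmpos : 0 < m := by
    have h6 : (0:ℝ) < m := by
      by_contra hcon
      push Not at hcon
      have := mul_nonpos_of_nonneg_of_nonpos hδ.le hcon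
      linarith
    exact_mod_cast h6
  have hmr : (0:ℝ) < m := by exact_mod_cast hmpos
  have v3 : δ * ((N:ℝ) * m) ≤ H / N := by
    rw [le_div_iff₀ hNr]
    have e : δ * ((N:ℝ) * m) * N = δ * ((N:ℝ)^2 * m) := by ring
    rw [e]
    linarith
  have v4 : δ * (m:ℝ) ≤ H / N := by
    refine le_trans ?_ v3
    have : δ * ((N:ℝ) * m) = N * (δ * m) := by ring
    rw [this]
    nlinarith
  refine ⟨m, hmpos, hr, by linarith, hm1, ?_⟩
  intro K hK hne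
  -- the points
  have hex : ∀ k : ℤ, ∃ z ∈ K, |z.im - max 0 (min H (δ * (k * m)))| ≤ κ / 2 ∧
      ((∃ z' ∈ K, |z'.im - max 0 (min H (δ * (k * m)))| ≤ κ / 2 ∧
        |z'.re + A - ((k % (N:ℤ) : ℤ) : ℝ) * ((A + B) / N)| ≤ (A + B) / N) →
        |z.re + A - ((k % (N:ℤ) : ℤ) : ℝ) * ((A + B) / N)| ≤ (A + B) / N) := by
    intro k
    by_cases h : ∃ z' ∈ K, |z'.im - max 0 (min H (δ * (k * m)))| ≤ κ / 2 ∧
        |z'.re + A - ((k % (N:ℤ) : ℤ) : ℝ) * ((A + B) / N)| ≤ (A + B) / N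
    · obtain ⟨z, hz, h1, h2⟩ := h
      exact ⟨z, hz, h1, fun _ => h2⟩
    · obtain ⟨z, hz, h1, h2⟩ := hne (max 0 (min H (δ * (k * m)))) (le_max_left _ _)
        (max_le hH.le (min_le_left _ _))
      refine ⟨z, hz, ?_, fun h' => absurd h' h⟩
      have e : z.im = max 0 (min H (δ * (k * m))) := le_antisymm h2 h1
      rw [e, sub_self, abs_zero]
      positivity
  choose q hqK hq1 hq2 using hex
  have hclip : ∀ k, |(q k).re - δ * ((max x0 (min x1 ⌊(q k).re / δ⌋) : ℤ) : ℝ)| ≤ δ := by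
    intro k
    obtain ⟨⟨a1, a2⟩, -⟩ := hK (hqK k)
    exact clip hδ h01 hx0 hx1 a1 a2
  have hdiv : ∀ k j : ℤ, k * m ≤ j → j ≤ k * m + m - 1 → j / m = k := by
    intro k j j1 j2
    apply le_antisymm
    · have : j / m < k + 1 := by
        rw [Int.ediv_lt_iff_lt_mul hmpos]
        nlinarith
      omega
    · rw [Int.le_ediv_iff_mul_le hmpos]
      exact j1
  have hY : ∀ k : ℤ, 0 ≤ k → k * m ≤ y1 → max 0 (min H (δ * (k * m))) = δ * (k * m) := by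
    intro k hk0 hk1
    have a1 : (0:ℝ) ≤ (k:ℝ) * m := by exact_mod_cast mul_nonneg hk0 hmpos.le
    have a2 : (k:ℝ) * m ≤ y1 := by exact_mod_cast hk1
    have a3 := mul_le_mul_of_nonneg_left a2 hδ.le
    have a4 := mul_nonneg hδ.le a1
    rw [min_eq_right (by linarith), max_eq_right a4]
  refine ⟨fun j => max x0 (min x1 ⌊(q (j / m)).re / δ⌋), ?_, ?_, ?_, ?_⟩
  · intro j
    simp only
    omega
  · intro k j j1 j2
    simp only
    rw [hdiv k j j1 j2, hdiv k (k * m) le_rfl (by omega)]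
  · intro j j0 j1
    have d0 : 0 ≤ j / m := Int.ediv_nonneg j0 hmpos.le
    have d1 : j / m * m ≤ j := Int.ediv_mul_le _ (ne_of_gt hmpos)
    have d2 : j < (j / m + 1) * m := Int.lt_ediv_add_one_mul_self _ hmpos
    refine ⟨q (j / m), hqK _, ?_, ?_⟩
    · have h1 := hq1 (j / m)
      rw [hY (j / m) d0 (by omega)] at h1
      have d1r : ((j / m : ℤ) : ℝ) * m ≤ j := by exact_mod_cast d1
      have d2r : (j : ℝ) ≤ (((j / m : ℤ) : ℝ) + 1) * m := by exact_mod_cast d2.le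
      have e1 := mul_le_mul_of_nonneg_left d1r hδ.le
      have e2 := mul_le_mul_of_nonneg_left d2r hδ.le
      have u := abs_le.mp h1
      rw [abs_le]
      constructor <;> nlinarith
    · exact (hclip (j / m)).trans (by linarith)
  · intro p hp
    obtain ⟨⟨p1, p2⟩, p3, p4⟩ := hK hp
    obtain ⟨l, hl0, hl1, hl2⟩ := pick (L := A + B) (by linarith) hNz0
      (x := p.re + A) (by linarith) (by linarith)
    obtain ⟨b, hb0, hb3, hb4⟩ := pick (L := H) hH hNz0 (x := p.im) p3 p4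
    simp only [Int.cast_natCast] at hl2 hb4
    obtain ⟨k, hk⟩ : ∃ k : ℤ, k = (N:ℤ) * b + l := ⟨_, rfl⟩
    have hk0 : 0 ≤ k := by rw [hk]; positivity
    have hkN : k + 1 ≤ (N:ℤ)^2 := by rw [hk]; nlinarith
    obtain ⟨k', hk'⟩ := Int.eq_ofNat_of_zero_le hk0
    have hkr : k' < N^2 := by
      have : (k':ℤ) < (N:ℤ)^2 := by rw [← hk']; omega
      exact_mod_cast this
    have hkm : k * m ≤ y1 := by nlinarith
    have e2 : k % (N:ℤ) = l := by
      rw [hk, Int.mul_add_emod_self_left]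
      exact Int.emod_eq_of_lt hl0 hl1
    have hg0 : (0:ℝ) ≤ (b:ℝ) / N := div_nonneg (by exact_mod_cast hb0) hNr.le
    have hg1 : (b:ℝ) / N ≤ 1 := by
      rw [div_le_one hNr]; exact_mod_cast hb3.le
    have Y : |p.im - δ * (k * m)| ≤ κ / 2 := by
      have t2 : (b:ℝ) * (H / N) - δ * (N * m * b) =
          (b:ℝ) / N * (H - δ * ((N:ℝ)^2 * m)) := by
        field_simp
      have w0 : 0 ≤ H - δ * ((N:ℝ)^2 * m) := by linarith
      have w1 : H - δ * ((N:ℝ)^2 * m) ≤ δ * ((N:ℝ)^2 + 2) := by linarith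
      have t2a : 0 ≤ (b:ℝ) / N * (H - δ * ((N:ℝ)^2 * m)) := mul_nonneg hg0 w0
      have t2b : (b:ℝ) / N * (H - δ * ((N:ℝ)^2 * m)) ≤ δ * ((N:ℝ)^2 + 2) :=
        (mul_le_of_le_one_left w0 hg1).trans w1
      have hkr' : (k:ℝ) = N * b + l := by rw [hk]; push_cast; ring
      have hl0r : (0:ℝ) ≤ l := by exact_mod_cast hl0
      have hl1r : (l:ℝ) ≤ N := by exact_mod_cast hl1.le
      have g1 : 0 ≤ δ * ((l:ℝ) * m) := by positivity
      have g2 : δ * ((l:ℝ) * m) ≤ δ * ((N:ℝ) * m) :=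
        mul_le_mul_of_nonneg_left (mul_le_mul_of_nonneg_right hl1r hmr.le) hδ.le
      have g3 : δ * ((k:ℝ) * m) = δ * (N * m * b) + δ * ((l:ℝ) * m) := by rw [hkr']; ring
      have u1 := abs_le.mp hb4
      rw [abs_le, g3]
      constructor <;> nlinarith
    refine ⟨k', hkr, ?_, ?_⟩
    · rw [← hk']
      simp only
      rw [hdiv k (k * m) le_rfl (by omega)]
      have h3 := hq2 k ⟨p, hp, by rw [hY k hk0 hkm]; exact Y, by rw [e2]; exact hl2⟩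
      rw [e2] at h3
      have u1 := abs_le.mp hl2
      have u2 := abs_le.mp h3
      have u3 := abs_le.mp (hclip k)
      rw [abs_le]
      constructor <;> linarith
    · rw [← hk']
      push_cast
      refine Y.trans (by linarith)

end Pool.Agent.Helper57K9.TG
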